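import Pool.Agent.H31.CN.T1

/-!
# Sums of exponentials over the vectors
-/

set_option autoImplicit false

namespace Pool.Agent.H42.CN

open Pool.Agent.H31.CN

private lemma hs_a (s : ℝ) (hs : 0 < s) :
    HasSum (fun m : ℤ => Real.exp (-(s * |(m : ℝ)|)))
      ((1 - Real.exp (-s))⁻¹ + Real.exp (-s) * (1 - Real.exp (-s))⁻¹) := by
  have hr0 : 0 ≤ Real.exp (-s) := (Real.exp_pos _).le
  have hr1 : Real.exp (-s) < 1 := by
    rw [Real.exp_lt_one_iff]
    linarith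
  have hg := hasSum_geometric_of_lt_one hr0 hr1
  have h01 : ∀ n : ℕ, Real.exp (-(s * |((n : ℤ) : ℝ)|)) = Real.exp (-s) ^ n := by
    intro n
    rw [← Real.exp_nat_mul, Int.cast_natCast, abs_of_nonneg (Nat.cast_nonneg n)]
    congr 1
    ring
  have h02 : ∀ n : ℕ, Real.exp (-(s * |((-((n : ℤ) + 1) : ℤ) : ℝ)|)) =
      Real.exp (-s) * Real.exp (-s) ^ n := by
    intro n
    rw [← pow_succ', ← Real.exp_nat_mul]
    have h1 : ((-((n : ℤ) + 1) : ℤ) : ℝ) = -((n : ℝ) + 1) := by push_cast; ring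
    rw [h1, abs_neg, abs_of_nonneg (by positivity : (0 : ℝ) ≤ (n : ℝ) + 1)]
    congr 1
    push_cast
    ring
  refine HasSum.of_nat_of_neg_add_one (f := fun m : ℤ => Real.exp (-(s * |(m : ℝ)|))) ?_ ?_
  · simp only [h01]
    exact hg
  · simp only [h02]
    exact hg.mul_left _

private lemma hs_b (s : ℝ) (hs : 0 < s) :
    (1 - Real.exp (-s))⁻¹ + Real.exp (-s) * (1 - Real.exp (-s))⁻¹ ≤ 2 * (1 + 1 / s) := by
  have hr0 : 0 ≤ Real.exp (-s) := (Real.exp_pos _).le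
  have hr1 : Real.exp (-s) < 1 := by
    rw [Real.exp_lt_one_iff]
    linarith
  have h4 : Real.exp (-s) ≤ 1 / (1 + s) := by
    rw [Real.exp_neg, ← one_div]
    refine one_div_le_one_div_of_le (by linarith) ?_
    linarith [Real.add_one_le_exp s]
  have h5 : (1 - Real.exp (-s))⁻¹ ≤ 1 + 1 / s := by
    have h6 : s / (1 + s) ≤ 1 - Real.exp (-s) := by
      have : s / (1 + s) = 1 - 1 / (1 + s) := by
        field_simp
        ring
      linarith
    have h7 : 0 < s / (1 + s) := by positivity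
    calc (1 - Real.exp (-s))⁻¹ ≤ (s / (1 + s))⁻¹ := inv_anti₀ h7 h6
      _ = 1 + 1 / s := by
        rw [inv_div, add_div, div_self hs.ne', add_comm]
  have h8 : 0 ≤ (1 - Real.exp (-s))⁻¹ := by
    rw [inv_nonneg]
    linarith
  have h9 : Real.exp (-s) * (1 - Real.exp (-s))⁻¹ ≤ (1 - Real.exp (-s))⁻¹ :=
    mul_le_of_le_one_left h8 hr1.le
  linarith

private lemma hs_abs (s : ℝ) (hs : 0 < s) :
    Summable (fun m : ℤ => Real.exp (-(s * |(m : ℝ)|))) ∧
      ∑' m : ℤ, Real.exp (-(s * |(m : ℝ)|)) ≤ 2 * (1 + 1 / s) :=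
  ⟨(hs_a s hs).summable, (hs_a s hs).tsum_eq.trans_le (hs_b s hs)⟩

private lemma int_abs_le_sq (m : ℤ) : |(m : ℝ)| ≤ (m : ℝ) ^ 2 := by
  have h : |m| ≤ m ^ 2 := by
    rcases eq_or_ne m 0 with rfl | h
    · simp
    · have : 1 ≤ |m| := Int.one_le_abs h
      rw [← sq_abs]
      nlinarith
  exact_mod_cast h

/-- sums of exponentials over the vectors grow slowly -/
theorem pf_VGR : T_VGR := by
  intro Δ c hΔ hc
  have hΔ' : (0 : ℝ) < Δ := by exact_mod_cast hΔ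
  obtain ⟨hS1, -⟩ := hs_abs (c / 2) (by positivity)
  set S1 : ℝ := ∑' m : ℤ, Real.exp (-(c / 2 * |(m : ℝ)|)) with hS1d
  have hS1n : 0 ≤ S1 := tsum_nonneg fun m => (Real.exp_pos _).le
  refine ⟨Real.exp c * (S1 * (2 * (1 + 4 / (c * Δ)))), ?_⟩
  rintro ⟨A, B, C⟩ ⟨hA, hD⟩
  simp only at hA hD
  have hA1 : (1 : ℝ) ≤ A := by exact_mod_cast hA
  have hA0 : (0 : ℝ) < A := by linarith
  have hD' : 4 * (A : ℝ) * C - (B : ℝ) ^ 2 = Δ := by
    have := hD
    simp only [dsc] at this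
    exact_mod_cast this
  set β : ℝ := (B : ℝ) / (2 * A) with hβ
  set s : ℝ := c * Δ / (4 * A) with hs
  have hs0 : 0 < s := by positivity
  obtain ⟨hS2, hS2'⟩ := hs_abs s hs0
  let e : ℤ × ℤ ≃ ℤ × ℤ :=
    { toFun := fun v => (v.1 + ⌊β * v.2⌋, v.2)
      invFun := fun v => (v.1 - ⌊β * v.2⌋, v.2)
      left_inv := fun v => by simp
      right_inv := fun v => by simp }
  let g : ℤ × ℤ → ℝ := fun v => Real.exp c * (Real.exp (-(c / 2 * |(v.1 : ℝ)|)) *
    Real.exp (-(s * |(v.2 : ℝ)|)))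
  have hgs' : Summable (fun v : ℤ × ℤ => Real.exp (-(c / 2 * |(v.1 : ℝ)|)) *
      Real.exp (-(s * |(v.2 : ℝ)|))) :=
    hS1.mul_of_nonneg hS2 (fun m => (Real.exp_pos _).le) (fun m => (Real.exp_pos _).le)
  have hgs : Summable g := hgs'.mul_left _
  have hgt : ∑' v, g v = Real.exp c * (S1 * ∑' m : ℤ, Real.exp (-(s * |(m : ℝ)|))) := by
    rw [tsum_mul_left, ← hS1.tsum_mul_tsum hS2 hgs']
  have hle : ∀ v : ℤ × ℤ, Real.exp (-(c * (val (A, B, C) v : ℤ))) ≤ g (e v) := by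
    rintro ⟨x, y⟩
    simp only [g, e, Equiv.coe_fn_mk]
    rw [← Real.exp_add, ← Real.exp_add]
    refine Real.exp_le_exp.2 ?_
    have hv : ((val (A, B, C) (x, y) : ℤ) : ℝ) = A * (x + β * y) ^ 2 + Δ * (y : ℝ) ^ 2 / (4 * A) := by
      simp only [val]
      push_cast
      rw [hβ, ← hD']
      field_simp
      ring
    rw [hv]
    have h1 := int_abs_le_sq y
    have h2 := int_abs_le_sq (x + ⌊β * y⌋)
    have h3 : ((x + ⌊β * y⌋ : ℤ) : ℝ) = x + ⌊β * y⌋ := by push_cast; ring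
    set k : ℝ := ((⌊β * y⌋ : ℤ) : ℝ) with hk
    have hf0 : 0 ≤ β * y - k := by
      have := Int.floor_le (β * y)
      linarith
    have hf1 : β * y - k ≤ 1 := by
      have := Int.lt_floor_add_one (β * y)
      linarith
    have h4 : ((x : ℝ) + k) ^ 2 / 2 - 1 ≤ (x + β * y) ^ 2 := by
      have h5 : (x : ℝ) + β * y = (x + k) + (β * y - k) := by ring
      rw [h5]
      nlinarith [sq_nonneg ((x : ℝ) + k + 2 * (β * y - k))]
    have h5 : (x + β * y) ^ 2 ≤ A * (x + β * y) ^ 2 := by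
      nlinarith [sq_nonneg ((x : ℝ) + β * y)]
    have h6 : s * |(y : ℝ)| ≤ c * (Δ * (y : ℝ) ^ 2 / (4 * A)) := by
      have : c * (Δ * (y : ℝ) ^ 2 / (4 * A)) = s * (y : ℝ) ^ 2 := by
        rw [hs]
        ring
      rw [this]
      exact mul_le_mul_of_nonneg_left h1 hs0.le
    rw [h3] at h2 ⊢
    have h7 : c / 2 * |(x : ℝ) + k| - c ≤ c * (A * (x + β * y) ^ 2) := by
      have : |(x : ℝ) + k| / 2 - 1 ≤ A * (x + β * y) ^ 2 := by linarith
      nlinarith
    linarith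
  have hge : Summable fun v => g (e v) := e.summable_iff.2 hgs
  have hfs : Summable (fun v : ℤ × ℤ => Real.exp (-(c * (val (A, B, C) v : ℤ)))) :=
    hge.of_nonneg_of_le (fun v => (Real.exp_pos _).le) hle
  refine ⟨hfs, ?_⟩
  calc ∑' v : ℤ × ℤ, Real.exp (-(c * (val (A, B, C) v : ℤ))) ≤ ∑' v, g (e v) :=
        hfs.tsum_le_tsum hle hge
    _ = ∑' v, g v := e.tsum_eq g
    _ = Real.exp c * (S1 * ∑' m : ℤ, Real.exp (-(s * |(m : ℝ)|))) := hgt
    _ ≤ Real.exp c * (S1 * (2 * (1 + 1 / s))) := by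
        gcongr
    _ ≤ Real.exp c * (S1 * ((2 * (1 + 4 / (c * Δ))) * (1 + A))) := by
        have h1 : 1 / s = 4 / (c * Δ) * A := by
          rw [hs]
          field_simp
        have h2 : 0 < 4 / (c * (Δ : ℝ)) := by positivity
        have h3 : 2 * (1 + 1 / s) ≤ (2 * (1 + 4 / (c * Δ))) * (1 + A) := by
          rw [h1]
          nlinarith
        gcongr
    _ = Real.exp c * (S1 * (2 * (1 + 4 / (c * Δ)))) * (1 + ((A, B, C) : QF).1) := by
        ring

end Pool.Agent.H42.CN
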