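import Pool.Agent.H57.CN.Targets

/-! Board `chn_modules`, row KNA: amalgamation of the class of the finite names structures. -/

set_option autoImplicit false

namespace Pool.Agent.H42.CN

open Pool.Agent.H68.BP Pool.Agent.H58.SF Pool.Agent.H53.NR
open Pool.Agent.H53.GC (strOn sigOf)
open Pool.Agent.H57.AR (tp ty Ty)
open Pool.Agent.H57.LH (Hmg strOn_on)
open Pool.Agent.H72.CH Pool.Agent.H57.CN
open Function

open Classical in
/-- the retraction to the names in `A` -/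
noncomputable def ret {W : Type} {m : ℕ} (s : W → Fin m) (A : Set W) : W ⊕ Fin m → A ⊕ Fin m :=
  Sum.elim (fun x => if h : x ∈ A then Sum.inl ⟨x, h⟩ else Sum.inr (s x)) Sum.inr

private theorem ret_mem {W : Type} {m : ℕ} (s : W → Fin m) (A : Set W) (x : A) :
    ret s A (Sum.inl (x : W)) = Sum.inl x := by
  exact dif_pos x.2

private theorem sD_ret {W : Type} {m : ℕ} (s : W → Fin m) (A : Set W) (s1 : A → Fin m)
    (hs : ∀ x : A, s x = s1 x) (a : W ⊕ Fin m) : sD s1 (ret s A a) = sD s a := by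
  rcases a with x | i
  · by_cases h : x ∈ A
    · rw [ret_mem s A ⟨x, h⟩]
      exact (hs ⟨x, h⟩).symm
    · have h1 : ret s A (Sum.inl x) = Sum.inr (s x) := dif_neg h
      rw [h1]
      rfl
  · rfl

private theorem ret_inj {W : Type} {m : ℕ} (s : W → Fin m) (A : Set W) {a b : W ⊕ Fin m}
    (ha : a ∈ dm (m := m) A) (hb : b ∈ dm (m := m) A) (h : ret s A a = ret s A b) : a = b := by
  rcases a with x | i <;> rcases b with y | j
  · rw [ret_mem s A ⟨x, ha x rfl⟩, ret_mem s A ⟨y, hb y rfl⟩] at h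
    have h1 := Sum.inl.inj h
    exact congrArg Sum.inl (congrArg Subtype.val h1)
  · rw [ret_mem s A ⟨x, ha x rfl⟩] at h
    exact absurd h Sum.inl_ne_inr
  · rw [ret_mem s A ⟨y, hb y rfl⟩] at h
    exact absurd h Sum.inr_ne_inl
  · have h1 : (Sum.inr i : A ⊕ Fin m) = Sum.inr j := h
    exact congrArg Sum.inr (Sum.inr.inj h1)

private theorem ex_ret {V W : Type} {m : ℕ} {lv : V → V → ℕ} (s : W → Fin m) (A : Set W)
    (s1 : A → Fin m) (hs : ∀ x : A, s x = s1 x) (g1 : (Fin m → A ⊕ Fin m) → V)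
    (hg : ExOn lv (sD s1) g1 Set.univ) :
    ExOn lv (sD s) (fun u => g1 (fun i => ret s A (u i))) (dm A) := by
  intro w w' hw hw' hA hA' j hj
  have h1 := hg (fun i => ret s A (w i)) (fun i => ret s A (w' i))
    (fun i => (sD_ret s A s1 hs _).trans (hw i)) (fun i => (sD_ret s A s1 hs _).trans (hw' i))
    (fun _ => trivial) (fun _ => trivial) j hj
  refine h1.trans ⟨fun h i hi => ret_inj s A (hA i) (hA' i) (h i hi), fun h i hi => ?_⟩
  exact congrArg _ (h i hi)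

private theorem dk_ret {V W : Type} {m : ℕ} (s : W → Fin m) (A : Set W)
    (g1 : (Fin m → A ⊕ Fin m) → V) (z : Fin m → A) (h : Fin m) :
    dk (fun u => g1 (fun i => ret s A (u i))) (fun i => (z i : W)) h = dk g1 z h := by
  unfold dk cp
  refine congrArg g1 (funext fun i => ?_)
  dsimp only
  by_cases hi : i ≤ h
  · rw [if_pos hi, if_pos hi, ret_mem]
  · rw [if_neg hi, if_neg hi]
    rfl

private theorem NR_ret {V W : Type} {ρ : Sig} {𝔹 : Str ρ V} {m R : ℕ} {lv : V → V → ℕ}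
    (s : W → Fin m) (A : Set W) (s1 : A → Fin m) (hs : ∀ x : A, s x = s1 x)
    (g1 : (Fin m → A ⊕ Fin m) → V) (i : NI ρ m R) (z : NA ρ m R i → A) :
    NR 𝔹 lv s (dk (fun u => g1 (fun i => ret s A (u i)))) i (fun q => (z q : W)) ↔
      NR 𝔹 lv s1 (dk g1) i z := by
  rcases i with i | p
  · exact iff_of_eq (congrArg (· = i) (hs _))
  · have h1 : ∀ a, dk (fun u => g1 (fun i => ret s A (u i))) (fun i => (z (a, i) : W)) (p.1 a) =
        dk g1 (fun i => z (a, i)) (p.1 a) := fun a => dk_ret s A g1 _ _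
    constructor
    · rintro ⟨h2, x, h3, h4⟩
      refine ⟨fun a i hi => (hs _).symm.trans (h2 a i hi), x, fun a => ?_, h4⟩
      rw [← h1]
      exact h3 a
    · rintro ⟨h2, x, h3, h4⟩
      refine ⟨fun a i hi => (hs _).trans (h2 a i hi), x, fun a => ?_, h4⟩
      rw [h1]
      exact h3 a

theorem pf_KNA (hAMN : T_AMN) : T_KNA := by
  intro V ρ 𝔹 m lv hV _
  obtain ⟨R₀, hR₀⟩ := hAMN V ρ 𝔹 m lv hV
  refine ⟨R₀, fun R hR W _ A B 𝕏 𝕐 hAB hX hY hag => ?_⟩
  obtain ⟨s1, g1, hg1, h𝕏⟩ := hX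
  obtain ⟨s2, g2, hg2, h𝕐⟩ := hY
  -- agreement on the intersection
  have h12 : ∀ (i : NI ρ m R) (z : NA ρ m R i → (A ∩ B : Set W)),
      NR 𝔹 lv s1 (dk g1) i (fun q => ⟨z q, (z q).2.1⟩) ↔
      NR 𝔹 lv s2 (dk g2) i (fun q => ⟨z q, (z q).2.2⟩) := by
    have h1 := (strOn_on (R := NR (R := R) 𝔹 lv s1 (dk g1)) (R' := NR (R := R) 𝔹 lv s2 (dk g2))
      (x := fun t : (A ∩ B : Set W) => (⟨t, t.2.1⟩ : A))
      (y := fun t : (A ∩ B : Set W) => (⟨t, t.2.2⟩ : B)) Set.univ).1 (fun l z _ => by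
        rw [← h𝕏, ← h𝕐]
        exact hag l (fun i => (z i : W)) (fun i => (z i).2))
    exact fun i z => h1 i z fun _ => trivial
  classical
  let s : W → Fin m := fun x => if h : x ∈ A then s1 ⟨x, h⟩ else
    s2 ⟨x, (hAB x).resolve_left h⟩
  have hs1 : ∀ x : A, s x = s1 x := fun x => dif_pos x.2
  have hs2 : ∀ x : B, s x = s2 x := by
    intro x
    by_cases h : (x : W) ∈ A
    · rw [hs1 ⟨x, h⟩]
      have h1 := h12 (Sum.inl (s1 ⟨x, h⟩)) (fun _ => ⟨x, h, x.2⟩)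
      exact (h1.1 rfl).symm
    · exact dif_neg h
  obtain ⟨g, hg, hgA, hgB⟩ := hR₀ R hR W A B s (fun u => g1 (fun i => ret s A (u i)))
    (fun u => g2 (fun i => ret s B (u i))) (ex_ret s A s1 hs1 g1 hg1) (ex_ret s B s2 hs2 g2 hg2)
    hAB (fun i z hz => by
      have h1 := NR_ret (𝔹 := 𝔹) (lv := lv) (R := R) s A s1 hs1 g1 i (fun q => ⟨z q, (hz q).1⟩)
      have h2 := NR_ret (𝔹 := 𝔹) (lv := lv) (R := R) s B s2 hs2 g2 i (fun q => ⟨z q, (hz q).2⟩)
      exact h1.trans ((h12 i fun q => ⟨z q, hz q⟩).trans h2.symm))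
  refine ⟨strOn (NR 𝔹 lv s (dk g)), ⟨s, g, hg, rfl⟩, fun l z hz => ?_, fun l z hz => ?_⟩
  · have h1 := (strOn_on (R := NR (R := R) 𝔹 lv s (dk g)) (R' := NR (R := R) 𝔹 lv s1 (dk g1))
      (x := fun t : A => (t : W)) (y := id) Set.univ).2 (fun i z _ =>
        (hgA i (fun q => (z q : W)) (fun q => (z q).2)).trans (NR_ret s A s1 hs1 g1 i z))
      l (fun i => ⟨z i, hz i⟩) (fun _ => trivial)
    refine h1.trans ?_
    change strOn (NR (R := R) 𝔹 lv s1 (dk g1)) l (fun i => ⟨z i, hz i⟩) ↔ _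
    rw [← h𝕏]
    exact Iff.rfl
  · have h1 := (strOn_on (R := NR (R := R) 𝔹 lv s (dk g)) (R' := NR (R := R) 𝔹 lv s2 (dk g2))
      (x := fun t : B => (t : W)) (y := id) Set.univ).2 (fun i z _ =>
        (hgB i (fun q => (z q : W)) (fun q => (z q).2)).trans (NR_ret s B s2 hs2 g2 i z))
      l (fun i => ⟨z i, hz i⟩) (fun _ => trivial)
    refine h1.trans ?_
    change strOn (NR (R := R) 𝔹 lv s2 (dk g2)) l (fun i => ⟨z i, hz i⟩) ↔ _
    rw [← h𝕐]
    exact Iff.rfl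

end Pool.Agent.H42.CN
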