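import Pool.Agent.H57.CN.Targets

/-! Board `chn_modules`, row KNO: one-point structures of each sort. -/

set_option autoImplicit false

namespace Pool.Agent.H42.CN

open Pool.Agent.H68.BP Pool.Agent.H58.SF Pool.Agent.H53.NR
open Pool.Agent.H53.GC (strOn sigOf)
open Pool.Agent.H57.AR (tp ty Ty)
open Pool.Agent.H57.LH (Hmg strOn_on)
open Pool.Agent.H72.CH Pool.Agent.H57.CN
open Function

theorem pf_KNO (hEXF : T_EXF) : T_KNO := by
  intro V ρ 𝔹 m lv R hV i
  obtain ⟨g, hg⟩ := hEXF V ρ 𝔹 m lv hV (Unit ⊕ Fin m) (sD fun _ => i)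
  refine ⟨strOn (NR (R := R) 𝔹 lv (fun _ => i) (dk g)), ⟨_, g, hg, rfl⟩, fun s κ h => ?_⟩
  have h1 := (strOn_on (R := NR (R := R) 𝔹 lv (fun _ => i) (dk g)) (R' := NR (R := R) 𝔹 lv s κ)
    (x := id) (y := id) Set.univ).1
    (fun l z _ => iff_of_eq (congrFun (congrFun h l) z)) (Sum.inl i) (fun _ => ())
    (fun _ => trivial)
  exact h1.1 rfl

end Pool.Agent.H42.CN
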